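import Pool.Agent.W569.GeoLow

/-!
The exact value of the volume constant `g_n` for the geometric mean of symmetric convex bodies.
-/

set_option autoImplicit false

open MeasureTheory Filter Topology Set
open Pool.Agent.Results.MP_808d7a_gt.GeoMeanAsymptotics

namespace Pool.Agent.Results.MP_808d7a_gt.ExactValue

theorem exact (n : ℕ) (hn : 1 ≤ n) :
    gConst n = (volume (Metric.closedBall (0 : EuclideanSpace ℝ (Fin n)) 1)).toReal / 2 ^ n := by
  apply le_antisymm (gConst_le n)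
  apply (gConst_isGreatest n).2
  intro K T G hK hT hG
  exact W569.lower hn (body_of_isSymmBody hK) (body_of_isSymmBody hT) hG

/-- upper bound for the Gamma function -/
theorem gamma_upper {s : ℝ} (hs : 0 < s) :
    Real.Gamma (s + 1) ≤ Real.exp 1 * (s + 1) * (s ^ s * Real.exp (-s)) := by
  have hs1 : 0 < s + 1 := by linarith
  -- `x ^ s * exp (-(s/(s+1)) x) ≤ ((s+1)/e)^s`
  have hpt : ∀ x : ℝ, 0 < x → Real.exp (-x) * x ^ s ≤
      (s + 1) ^ s * Real.exp (-s) * Real.exp (-(1 / (s + 1)) * x) := by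
    intro x hx
    have h1 : x ^ s = Real.exp (Real.log x * s) := Real.rpow_def_of_pos hx s
    have h2 : (s + 1) ^ s = Real.exp (Real.log (s + 1) * s) := Real.rpow_def_of_pos hs1 s
    rw [h1, h2, ← Real.exp_add, ← Real.exp_add, ← Real.exp_add, Real.exp_le_exp]
    have h3 : Real.log (x / (s + 1)) ≤ x / (s + 1) - 1 := Real.log_le_sub_one_of_pos (by positivity)
    rw [Real.log_div hx.ne' hs1.ne'] at h3
    have h4 : s * (Real.log x - Real.log (s + 1)) ≤ s * (x / (s + 1) - 1) :=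
      mul_le_mul_of_nonneg_left h3 hs.le
    have h5 : s * (x / (s + 1) - 1) = x - s - 1 / (s + 1) * x := by
      field_simp
      ring
    rw [h5] at h4
    nlinarith
  have hint : IntegrableOn (fun x : ℝ => Real.exp (-x) * x ^ s) (Ioi 0) := by
    have := Real.GammaIntegral_convergent (s := s + 1) (by linarith)
    simpa using this
  have hint2 : IntegrableOn (fun x : ℝ => (s + 1) ^ s * Real.exp (-s) *
      Real.exp (-(1 / (s + 1)) * x)) (Ioi 0) :=
    (integrableOn_exp_mul_Ioi (by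
      have : 0 < 1 / (s + 1) := by positivity
      linarith) 0).const_mul _
  rw [Real.Gamma_eq_integral (by linarith)]
  simp only [add_sub_cancel_right]
  have h6 : ∫ x in Ioi (0 : ℝ), Real.exp (-x) * x ^ s ≤
      ∫ x in Ioi (0 : ℝ), (s + 1) ^ s * Real.exp (-s) * Real.exp (-(1 / (s + 1)) * x) :=
    setIntegral_mono_on hint hint2 measurableSet_Ioi fun x hx => hpt x hx
  refine h6.trans ?_
  rw [integral_const_mul]
  have h7 : ∫ x in Ioi (0 : ℝ), Real.exp (-(1 / (s + 1)) * x) = s + 1 := by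
    rw [integral_exp_mul_Ioi (by
      have : 0 < 1 / (s + 1) := by positivity
      linarith) 0]
    simp
  rw [h7]
  have h8 : (s + 1) ^ s ≤ Real.exp 1 * s ^ s := by
    have h9 : (s + 1) ^ s = s ^ s * (1 + 1 / s) ^ s := by
      rw [← Real.mul_rpow hs.le (by positivity)]
      congr 1
      field_simp
    have h10 : (1 + 1 / s) ^ s ≤ Real.exp 1 := by
      have h11 : 1 + 1 / s ≤ Real.exp (1 / s) := by
        have := Real.add_one_le_exp (1 / s)
        linarith
      calc (1 + 1 / s) ^ s ≤ (Real.exp (1 / s)) ^ s :=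
            Real.rpow_le_rpow (by positivity) h11 hs.le
        _ = Real.exp 1 := by
            rw [← Real.exp_mul]
            congr 1
            field_simp
    rw [h9, mul_comm]
    have : 0 ≤ s ^ s := Real.rpow_nonneg hs.le s
    gcongr
  have h12 : 0 ≤ Real.exp (-s) := (Real.exp_pos _).le
  calc (s + 1) ^ s * Real.exp (-s) * (s + 1) ≤ (Real.exp 1 * s ^ s) * Real.exp (-s) * (s + 1) := by
        gcongr
    _ = _ := by ring

theorem ball_lower (n : ℕ) (hn : 1 ≤ n) :
    (√(Real.pi * Real.exp 1 / 2) / √n) ^ n / (Real.exp 1 * ((n : ℝ) / 2 + 1)) ≤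
      (volume (Metric.closedBall (0 : EuclideanSpace ℝ (Fin n)) 1)).toReal / 2 ^ n := by
  have : Nonempty (Fin n) := ⟨⟨0, hn⟩⟩
  have hn0 : (0 : ℝ) < n := by exact_mod_cast hn
  rw [EuclideanSpace.volume_closedBall]
  simp only [ENNReal.ofReal_one, one_pow, one_mul, Fintype.card_fin]
  have hG := gamma_upper (s := (n : ℝ) / 2) (by positivity)
  have hG0 : 0 < Real.Gamma ((n : ℝ) / 2 + 1) := Real.Gamma_pos_of_pos (by positivity)
  rw [ENNReal.toReal_ofReal (by positivity)]
  have e1 : ((n : ℝ) / 2) ^ ((n : ℝ) / 2) * Real.exp (-((n : ℝ) / 2)) =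
      (√((n : ℝ) / 2) / √(Real.exp 1)) ^ n := by
    rw [div_pow, div_eq_mul_inv (√((n : ℝ) / 2) ^ n)]
    congr 1
    · rw [Real.sqrt_eq_rpow, ← Real.rpow_natCast, ← Real.rpow_mul (by positivity)]
      congr 1; ring
    · rw [Real.sqrt_eq_rpow, ← Real.exp_mul, ← Real.exp_nat_mul, ← Real.exp_neg]
      congr 1; ring
  rw [e1] at hG
  have hpos : 0 < (√((n : ℝ) / 2) / √(Real.exp 1)) ^ n := by
    have := Real.exp_pos 1
    positivity
  have h0 : (√(Real.pi * Real.exp 1 / 2) / √n) =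
      √Real.pi / (√((n : ℝ) / 2) / √(Real.exp 1)) / 2 := by
    have h2 : √((n : ℝ) / 2) = √n / √2 := Real.sqrt_div hn0.le 2
    have h3 : √(Real.pi * Real.exp 1 / 2) = √Real.pi * √(Real.exp 1) / √2 := by
      rw [Real.sqrt_div (by positivity), Real.sqrt_mul (by positivity)]
    rw [h2, h3]
    have h4 : 0 < √(n : ℝ) := Real.sqrt_pos.mpr hn0
    have h5 : 0 < √(Real.exp 1) := Real.sqrt_pos.mpr (Real.exp_pos 1)
    have h6 : √(2 : ℝ) * √2 = 2 := Real.mul_self_sqrt (by norm_num)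
    have h7 : 0 < √(2 : ℝ) := by positivity
    field_simp
    nlinarith
  rw [h0]
  calc (√Real.pi / (√((n : ℝ) / 2) / √(Real.exp 1)) / 2) ^ n / (Real.exp 1 * ((n : ℝ) / 2 + 1))
      = √Real.pi ^ n / (Real.exp 1 * ((n : ℝ) / 2 + 1) *
          (√((n : ℝ) / 2) / √(Real.exp 1)) ^ n) / 2 ^ n := by
        rw [div_pow, div_pow]
        have := Real.exp_pos 1
        field_simp
    _ ≤ √Real.pi ^ n / Real.Gamma ((n : ℝ) / 2 + 1) / 2 ^ n := by gcongr

theorem limit_root : Tendsto (fun n : ℕ => √(n : ℝ) * (gConst n) ^ (1 / (n : ℝ))) atTop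
    (𝓝 (√(Real.pi * Real.exp 1 / 2))) := by
  set a : ℝ := √(Real.pi * Real.exp 1 / 2) with ha
  have ha0 : 0 < a := Real.sqrt_pos.2 (by positivity)
  have hup : ∀ n : ℕ, 1 ≤ n → √(n : ℝ) * (gConst n) ^ (1 / (n : ℝ)) ≤ a := by
    intro n hn
    have hn0 : (0 : ℝ) < n := by exact_mod_cast hn
    have hs : 0 < √(n : ℝ) := Real.sqrt_pos.2 hn0
    have h1 : gConst n ≤ (a / √n) ^ n := (gConst_le n).trans (ball_bound n hn)
    have h0 : 0 ≤ gConst n := by rw [exact n hn]; positivity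
    have h2 : (gConst n) ^ (1 / (n : ℝ)) ≤ ((a / √n) ^ n) ^ (1 / (n : ℝ)) :=
      Real.rpow_le_rpow h0 h1 (by positivity)
    rw [← Real.rpow_natCast, ← Real.rpow_mul (by positivity), mul_one_div_cancel hn0.ne',
      Real.rpow_one, le_div_iff₀ hs] at h2
    linarith
  have hlo : ∀ n : ℕ, 1 ≤ n → a * (Real.exp 1 * ((n : ℝ) / 2 + 1)) ^
      ((-1) / ((2 / Real.exp 1) * (Real.exp 1 * ((n : ℝ) / 2 + 1)) + (-2))) ≤
      √(n : ℝ) * (gConst n) ^ (1 / (n : ℝ)) := by
    intro n hn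
    have hn0 : (0 : ℝ) < n := by exact_mod_cast hn
    have he := Real.exp_pos 1
    have hs : 0 < √(n : ℝ) := Real.sqrt_pos.2 hn0
    have h1 : (a / √n) ^ n / (Real.exp 1 * ((n : ℝ) / 2 + 1)) ≤ gConst n := by
      rw [exact n hn]
      exact ball_lower n hn
    have h2 := Real.rpow_le_rpow (by positivity) h1 (by positivity : 0 ≤ 1 / (n : ℝ))
    rw [Real.div_rpow (by positivity) (by positivity), ← Real.rpow_natCast,
      ← Real.rpow_mul (by positivity), mul_one_div_cancel hn0.ne', Real.rpow_one] at h2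
    have h3 : (2 / Real.exp 1) * (Real.exp 1 * ((n : ℝ) / 2 + 1)) + (-2) = n := by
      field_simp
      ring
    rw [h3, neg_div, Real.rpow_neg (by positivity)]
    have h4 := mul_le_mul_of_nonneg_left h2 hs.le
    refine le_trans (le_of_eq ?_) h4
    field_simp
  have hl : Tendsto (fun n : ℕ => a * (Real.exp 1 * ((n : ℝ) / 2 + 1)) ^
      ((-1) / ((2 / Real.exp 1) * (Real.exp 1 * ((n : ℝ) / 2 + 1)) + (-2)))) atTop (𝓝 (a * 1)) := by
    apply Tendsto.const_mul
    have h1 := tendsto_rpow_div_mul_add (-1) (2 / Real.exp 1) (-2) (by positivity)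
    have h2 : Tendsto (fun n : ℕ => Real.exp 1 * ((n : ℝ) / 2 + 1)) atTop atTop := by
      apply Tendsto.const_mul_atTop (Real.exp_pos 1)
      apply tendsto_atTop_add_const_right
      exact tendsto_natCast_atTop_atTop.atTop_div_const (by norm_num)
    exact h1.comp h2
  rw [mul_one] at hl
  refine tendsto_of_tendsto_of_tendsto_of_le_of_le' hl tendsto_const_nhds ?_ ?_
  · filter_upwards [eventually_ge_atTop 1] with n hn using hlo n hn
  · filter_upwards [eventually_ge_atTop 1] with n hn using hup n hn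

/-- The constant `g_n` equals `|B_2^n| / 2^n = π^{n/2} / (2^n Γ(n/2 + 1))` for every `n ≥ 1`; so
`√n g_n^{1/n}` converges to `√(π e / 2)`, and no bound `g_n ≥ c^n` holds. -/
theorem result :
    (∀ n : ℕ, 1 ≤ n →
      gConst n = (volume (Metric.closedBall (0 : EuclideanSpace ℝ (Fin n)) 1)).toReal / 2 ^ n ∧
      gConst n = √Real.pi ^ n / (2 ^ n * Real.Gamma ((n : ℝ) / 2 + 1))) ∧
    Tendsto (fun n : ℕ => √(n : ℝ) * (gConst n) ^ (1 / (n : ℝ))) atTop
      (𝓝 (√(Real.pi * Real.exp 1 / 2))) ∧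
    ¬ ∃ c : ℝ, 0 < c ∧ ∀ n : ℕ, 1 ≤ n → c ^ n ≤ gConst n := by
  refine ⟨fun n hn => ⟨exact n hn, ?_⟩, limit_root, GeoMeanAsymptotics.result.2⟩
  have : Nonempty (Fin n) := ⟨⟨0, hn⟩⟩
  have hG0 : 0 < Real.Gamma ((n : ℝ) / 2 + 1) := Real.Gamma_pos_of_pos (by positivity)
  rw [exact n hn, EuclideanSpace.volume_closedBall]
  simp only [ENNReal.ofReal_one, one_pow, one_mul, Fintype.card_fin]
  rw [ENNReal.toReal_ofReal (by positivity)]
  field_simp

end Pool.Agent.Results.MP_808d7a_gt.ExactValue
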